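import Pool.Agent.V11112.EX4

/-! For the typical compact set `K ⊆ [0,1]` the Minkowski exponential series `exp(K)` has positive
Hausdorff dimension.  More precisely this holds for every `K` with at least two nonzero points. -/

open Filter Topology TopologicalSpace
open scoped ENNReal

namespace Pool.Agent.Results.MP_098a03_an.ExpTypicalPositive

/-- The Minkowski product of `i` copies of `A` (for `i = 0` it is `{1}`). -/
def mpow (A : Set ℝ) (i : ℕ) : Set ℝ :=
  {x | ∃ a : Fin i → ℝ, (∀ j, a j ∈ A) ∧ x = ∏ j, a j}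

/-- The partial Minkowski sum of the sets `(1 / i!) · A^(i)`, `i = 0, …, n`. -/
def psum (A : Set ℝ) (n : ℕ) : Set ℝ :=
  {x | ∃ y : ℕ → ℝ, (∀ i, i ≤ n → y i ∈ mpow A i) ∧
    x = ∑ i ∈ Finset.range (n + 1), y i / (i.factorial : ℝ)}

/-- The set of real numbers underlying a compact subset of `[0,1]`. -/
def toSet (K : NonemptyCompacts (Set.Icc (0 : ℝ) 1)) : Set ℝ := Subtype.val '' (K : Set (Set.Icc (0 : ℝ) 1))

/-- `E` is the exponential series evaluated at `K`: the partial Minkowski sums converge to `E` in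
the Hausdorff metric. -/
def IsExp (K : NonemptyCompacts (Set.Icc (0 : ℝ) 1)) (E : NonemptyCompacts ℝ) : Prop :=
  Tendsto (fun n => Metric.hausdorffDist (psum (toSet K) n) (E : Set ℝ)) atTop (𝓝 0)

/-- all selections of the full series -/
def Sel (A : Set ℝ) : Set ℝ :=
  {x | ∃ y : ℕ → ℝ, (∀ i, y i ∈ mpow A i) ∧ x = ∑' i, y i / (i.factorial : ℝ)}

lemma mpow_bd {A : Set ℝ} (hA : A ⊆ Set.Icc 0 1) {i : ℕ} {x : ℝ} (hx : x ∈ mpow A i) :
    0 ≤ x ∧ x ≤ 1 := by
  obtain ⟨a, ha, rfl⟩ := hx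
  exact ⟨Finset.prod_nonneg (fun j _ => (hA (ha j)).1),
    Finset.prod_le_one (fun j _ => (hA (ha j)).1) (fun j _ => (hA (ha j)).2)⟩

lemma mpow_nonempty {A : Set ℝ} (hA : A.Nonempty) (i : ℕ) : (mpow A i).Nonempty := by
  obtain ⟨a, ha⟩ := hA
  exact ⟨_, fun _ => a, fun _ => ha, rfl⟩

lemma mpow_succ {A : Set ℝ} {i : ℕ} {x y : ℝ} (hx : x ∈ mpow A i) (hy : y ∈ A) :
    x * y ∈ mpow A (i + 1) := by
  obtain ⟨a, ha, rfl⟩ := hx
  refine ⟨Fin.snoc a y, fun j => ?_, ?_⟩
  · refine Fin.lastCases ?_ (fun j => ?_) j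
    · simpa using hy
    · simpa using ha j
  · rw [Fin.prod_univ_castSucc]
    simp

lemma mpow_two {A : Set ℝ} {a b : ℝ} (ha : a ∈ A) (hb : b ∈ A) (j m : ℕ) :
    a ^ j * b ^ m ∈ mpow A (j + m) := by
  induction m with
  | zero =>
    rw [pow_zero, mul_one, add_zero]
    induction j with
    | zero => exact ⟨fun _ => a, fun _ => ha, by simp⟩
    | succ j ih =>
      rw [pow_succ]
      exact mpow_succ ih ha
  | succ m ih =>
    rw [pow_succ, ← mul_assoc, ← add_assoc]
    exact mpow_succ ih hb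

/-- the tails of the exponential series -/
noncomputable def tl (n : ℕ) : ℝ := ∑' i : ℕ, 1 / ((i + (n + 1)).factorial : ℝ)

lemma summ : Summable (fun i : ℕ => 1 / (i.factorial : ℝ)) := by
  have := Real.summable_pow_div_factorial 1
  simpa using this

lemma tl_tendsto : Tendsto tl atTop (𝓝 0) := by
  have := tendsto_sum_nat_add (fun i : ℕ => 1 / (i.factorial : ℝ))
  exact this.comp (tendsto_add_atTop_nat 1)

lemma tl_nonneg (n : ℕ) : 0 ≤ tl n := tsum_nonneg (fun i => by positivity)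

lemma summ_y {y : ℕ → ℝ} (hy : ∀ i, 0 ≤ y i ∧ y i ≤ 1) :
    Summable (fun i : ℕ => y i / (i.factorial : ℝ)) :=
  Summable.of_nonneg_of_le (fun i => div_nonneg (hy i).1 (by positivity))
    (fun i => div_le_div_of_nonneg_right (hy i).2 (by positivity)) summ

lemma tail_le {y : ℕ → ℝ} (hy : ∀ i, 0 ≤ y i ∧ y i ≤ 1) (n : ℕ) :
    dist (∑ i ∈ Finset.range (n + 1), y i / (i.factorial : ℝ)) (∑' i, y i / (i.factorial : ℝ)) ≤
      tl n := by
  have h1 := (summ_y hy).sum_add_tsum_nat_add (n + 1)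
  rw [← h1, dist_comm, Real.dist_eq, add_sub_cancel_left]
  have h2 : Summable (fun i : ℕ => y (i + (n + 1)) / ((i + (n + 1)).factorial : ℝ)) :=
    (summable_nat_add_iff (n + 1)).2 (summ_y hy)
  have h3 : Summable (fun i : ℕ => 1 / ((i + (n + 1)).factorial : ℝ)) :=
    (summable_nat_add_iff (n + 1)).2 summ
  rw [abs_of_nonneg (tsum_nonneg (fun i => div_nonneg (hy _).1 (by positivity)))]
  exact h2.tsum_le_tsum (fun i => div_le_div_of_nonneg_right (hy _).2 (by positivity)) h3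

section
variable {A : Set ℝ} (hA : A ⊆ Set.Icc 0 1) (hne : A.Nonempty)
include hA hne

lemma hd_le (n : ℕ) : Metric.hausdorffDist (psum A n) (Sel A) ≤ tl n := by
  classical
  apply Metric.hausdorffDist_le_of_mem_dist (tl_nonneg n)
  · rintro x ⟨y, hy, rfl⟩
    choose z hz using fun i => mpow_nonempty hne i
    obtain ⟨y', hy'⟩ : ∃ y' : ℕ → ℝ, ∀ i, y' i = if i ≤ n then y i else z i := ⟨_, fun _ => rfl⟩
    have hy'm : ∀ i, y' i ∈ mpow A i := by
      intro i
      rw [hy']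
      split_ifs with h
      · exact hy i h
      · exact hz i
    refine ⟨_, ⟨y', hy'm, rfl⟩, ?_⟩
    have h1 : ∑ i ∈ Finset.range (n + 1), y i / (i.factorial : ℝ) =
        ∑ i ∈ Finset.range (n + 1), y' i / (i.factorial : ℝ) := by
      apply Finset.sum_congr rfl
      intro i hi
      rw [Finset.mem_range] at hi
      rw [hy', if_pos (by omega)]
    rw [h1]
    exact tail_le (fun i => mpow_bd hA (hy'm i)) n
  · rintro x ⟨y, hy, rfl⟩
    refine ⟨_, ⟨y, fun i _ => hy i, rfl⟩, ?_⟩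
    rw [dist_comm]
    exact tail_le (fun i => mpow_bd hA (hy i)) n

lemma sel_nonempty : (Sel A).Nonempty := by
  choose z hz using fun i => mpow_nonempty hne i
  exact ⟨_, z, hz, rfl⟩

lemma sel_bdd : Bornology.IsBounded (Sel A) := by
  rw [Metric.isBounded_iff_subset_closedBall 0]
  refine ⟨∑' i : ℕ, 1 / (i.factorial : ℝ), ?_⟩
  rintro x ⟨y, hy, rfl⟩
  have hy' := fun i => mpow_bd hA (hy i)
  rw [mem_closedBall_zero_iff, Real.norm_eq_abs,
    abs_of_nonneg (tsum_nonneg (fun i => div_nonneg (hy' i).1 (by positivity)))]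
  exact (summ_y hy').tsum_le_tsum
    (fun i => div_le_div_of_nonneg_right (hy' i).2 (by positivity)) summ

lemma psum_nonempty (n : ℕ) : (psum A n).Nonempty := by
  choose z hz using fun i => mpow_nonempty hne i
  exact ⟨_, z, fun i _ => hz i, rfl⟩

lemma psum_bdd (n : ℕ) : Bornology.IsBounded (psum A n) := by
  rw [Metric.isBounded_iff_subset_closedBall 0]
  refine ⟨∑ i ∈ Finset.range (n + 1), 1 / (i.factorial : ℝ), ?_⟩
  rintro x ⟨y, hy, rfl⟩
  rw [mem_closedBall_zero_iff, Real.norm_eq_abs, abs_of_nonneg]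
  · apply Finset.sum_le_sum
    intro i hi
    rw [Finset.mem_range] at hi
    exact div_le_div_of_nonneg_right (mpow_bd hA (hy i (by omega))).2 (by positivity)
  · apply Finset.sum_nonneg
    intro i hi
    rw [Finset.mem_range] at hi
    exact div_nonneg (mpow_bd hA (hy i (by omega))).1 (by positivity)

lemma sel_subset {E : Set ℝ} (hEc : IsCompact E) (hEn : E.Nonempty)
    (hE : Tendsto (fun n => Metric.hausdorffDist (psum A n) E) atTop (𝓝 0)) : Sel A ⊆ E := by
  rintro x ⟨y, hy, rfl⟩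
  rw [hEc.isClosed.mem_iff_infDist_zero hEn]
  have h1 : ∀ n, Metric.infDist (∑' i, y i / (i.factorial : ℝ)) E ≤
      Metric.hausdorffDist (psum A n) E + tl n := by
    intro n
    have h2 : (∑ i ∈ Finset.range (n + 1), y i / (i.factorial : ℝ)) ∈ psum A n :=
      ⟨y, fun i _ => hy i, rfl⟩
    have h3 := Metric.infDist_le_hausdorffDist_of_mem h2
      (Metric.hausdorffEDist_ne_top_of_nonempty_of_bounded (psum_nonempty hA hne n) hEn
        (psum_bdd hA hne n) hEc.isBounded)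
    have h4 := tail_le (fun i => mpow_bd hA (hy i)) n
    rw [dist_comm] at h4
    have h5 := Metric.infDist_le_infDist_add_dist (s := E)
      (x := ∑' i, y i / (i.factorial : ℝ))
      (y := ∑ i ∈ Finset.range (n + 1), y i / (i.factorial : ℝ))
    linarith
  have h6 : Tendsto (fun n => Metric.hausdorffDist (psum A n) E + tl n) atTop (𝓝 (0 + 0)) :=
    hE.add tl_tendsto
  rw [add_zero] at h6
  exact le_antisymm (ge_of_tendsto' h6 h1) Metric.infDist_nonneg

end

lemma toSet_sub (K : NonemptyCompacts (Set.Icc (0 : ℝ) 1)) : toSet K ⊆ Set.Icc 0 1 := by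
  rintro _ ⟨x, _, rfl⟩
  exact x.2

lemma toSet_ne (K : NonemptyCompacts (Set.Icc (0 : ℝ) 1)) : (toSet K).Nonempty :=
  K.nonempty.image _

lemma exp_exists (K : NonemptyCompacts (Set.Icc (0 : ℝ) 1)) : ∃ E, IsExp K E := by
  have hc : IsCompact (closure (Sel (toSet K))) :=
    Metric.isCompact_of_isClosed_isBounded isClosed_closure
      (sel_bdd (toSet_sub K) (toSet_ne K)).closure
  refine ⟨⟨⟨closure (Sel (toSet K)), hc⟩, (sel_nonempty (toSet_sub K) (toSet_ne K)).closure⟩, ?_⟩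
  unfold IsExp
  refine squeeze_zero (fun n => Metric.hausdorffDist_nonneg) (fun n => ?_) tl_tendsto
  change Metric.hausdorffDist (psum (toSet K) n) (closure (Sel (toSet K))) ≤ tl n
  rw [Metric.hausdorffDist_closure₂]
  exact hd_le (toSet_sub K) (toSet_ne K) n

lemma pos_of_two {K : NonemptyCompacts (Set.Icc (0 : ℝ) 1)}
    (hK : ∃ x ∈ K, ∃ y ∈ K, 0 < (x : ℝ) ∧ (x : ℝ) < (y : ℝ)) {E : NonemptyCompacts ℝ}
    (hE : IsExp K E) : 0 < dimH (E : Set ℝ) := by
  obtain ⟨x, hx, y, hy, h0, h1⟩ := hK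
  obtain ⟨Q, hQ⟩ : ∃ Q : V11112.EX.Par, Q = ⟨x, y, h0, h1, y.2.2⟩ := ⟨_, rfl⟩
  have hQa : Q.a = x := by rw [hQ]
  have hQb : Q.b = y := by rw [hQ]
  obtain ⟨S, hS, s, B, hs, hB⟩ := V11112.EX.exists_sys Q
  have hpos := S.dim_lower hS hs hB
  refine lt_of_lt_of_le hpos (dimH_mono ?_)
  have hsub := sel_subset (toSet_sub K) (toSet_ne K) E.isCompact E.nonempty hE
  refine subset_trans ?_ hsub
  rintro _ ⟨j, hj, rfl⟩
  refine ⟨fun i => Q.a ^ (j i) * Q.b ^ (i - j i), fun i => ?_, rfl⟩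
  have h2 := mpow_two (A := toSet K) (a := Q.a) (b := Q.b)
    (by rw [hQa]; exact ⟨x, hx, rfl⟩) (by rw [hQb]; exact ⟨y, hy, rfl⟩) (j i) (i - j i)
  have h3 : j i + (i - j i) = i := by have := hj i; omega
  rw [h3] at h2
  exact h2

lemma typical_two : {K : NonemptyCompacts (Set.Icc (0 : ℝ) 1) |
    ∃ x ∈ K, ∃ y ∈ K, 0 < (x : ℝ) ∧ (x : ℝ) < (y : ℝ)} ∈
      residual (NonemptyCompacts (Set.Icc (0 : ℝ) 1)) := by
  apply residual_of_dense_open
  · rw [Metric.isOpen_iff]
    rintro K ⟨x, hx, y, hy, h0, h1⟩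
    obtain ⟨ε, hε⟩ : ∃ ε : ℝ, ε = min (x : ℝ) (((y : ℝ) - x) / 2) := ⟨_, rfl⟩
    have hε0 : 0 < ε := by
      rw [hε]
      exact lt_min h0 (by linarith)
    have hε1 : ε ≤ x := by rw [hε]; exact min_le_left _ _
    have hε2 : ε ≤ ((y : ℝ) - x) / 2 := by rw [hε]; exact min_le_right _ _
    refine ⟨ε, hε0, fun K' hK' => ?_⟩
    rw [Metric.mem_ball, dist_comm, Metric.NonemptyCompacts.dist_eq] at hK'
    have hfin : Metric.hausdorffEDist (K : Set (Set.Icc (0 : ℝ) 1)) K' ≠ ⊤ :=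
      Metric.hausdorffEDist_ne_top_of_nonempty_of_bounded K.nonempty K'.nonempty
        K.isCompact.isBounded K'.isCompact.isBounded
    obtain ⟨x', hx', hxd⟩ := Metric.exists_dist_lt_of_hausdorffDist_lt
      (show x ∈ (K : Set (Set.Icc (0 : ℝ) 1)) from hx) hK' hfin
    obtain ⟨y', hy', hyd⟩ := Metric.exists_dist_lt_of_hausdorffDist_lt
      (show y ∈ (K : Set (Set.Icc (0 : ℝ) 1)) from hy) hK' hfin
    rw [Subtype.dist_eq, Real.dist_eq, abs_lt] at hxd hyd
    refine ⟨x', hx', y', hy', by linarith [hxd.2], ?_⟩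
    linarith [hxd.1, hyd.2]
  · rw [Metric.dense_iff]
    intro K ε hε
    obtain ⟨k, hk⟩ := K.nonempty
    obtain ⟨η, hη⟩ : ∃ η : ℝ, η = min (ε / 2) (1 / 4) := ⟨_, rfl⟩
    have hη0 : 0 < η := by rw [hη]; exact lt_min (by linarith) (by norm_num)
    have hη1 : η ≤ ε / 2 := by rw [hη]; exact min_le_left _ _
    have hη2 : η ≤ 1 / 4 := by rw [hη]; exact min_le_right _ _
    have hxy : ∃ x y : Set.Icc (0 : ℝ) 1, 0 < (x : ℝ) ∧ (x : ℝ) < (y : ℝ) ∧
        dist x k ≤ η ∧ dist y k ≤ η := by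
      have k0 := k.2.1
      have k1 := k.2.2
      rcases le_or_gt (k : ℝ) (1 / 2) with h | h
      · refine ⟨⟨(k : ℝ) + η / 2, by constructor <;> linarith⟩,
          ⟨(k : ℝ) + η, by constructor <;> linarith⟩, ?_, ?_, ?_, ?_⟩
        · change 0 < (k : ℝ) + η / 2
          linarith
        · change (k : ℝ) + η / 2 < (k : ℝ) + η
          linarith
        · rw [Subtype.dist_eq, Real.dist_eq, abs_le]
          constructor <;> simp <;> linarith
        · rw [Subtype.dist_eq, Real.dist_eq, abs_le]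
          constructor <;> simp
          linarith
      · refine ⟨⟨(k : ℝ) - η, by constructor <;> linarith⟩, k, ?_, ?_, ?_, ?_⟩
        · change 0 < (k : ℝ) - η
          linarith
        · change (k : ℝ) - η < (k : ℝ)
          linarith
        · rw [Subtype.dist_eq, Real.dist_eq, abs_le]
          constructor <;> simp
          linarith
        · rw [dist_self]
          exact hη0.le
    obtain ⟨x, y, h0, h1, h2, h3⟩ := hxy
    obtain ⟨K', hK'⟩ : ∃ K' : NonemptyCompacts (Set.Icc (0 : ℝ) 1),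
        (K' : Set (Set.Icc (0 : ℝ) 1)) = insert x (insert y (K : Set (Set.Icc (0 : ℝ) 1))) :=
      ⟨⟨⟨insert x (insert y (K : Set (Set.Icc (0 : ℝ) 1))), (K.isCompact.insert y).insert x⟩,
        Set.insert_nonempty _ _⟩, rfl⟩
    refine ⟨K', ?_, ⟨x, ?_, y, ?_, h0, h1⟩⟩
    · rw [Metric.mem_ball, Metric.NonemptyCompacts.dist_eq, hK']
      refine lt_of_le_of_lt (Metric.hausdorffDist_le_of_mem_dist (r := η) hη0.le ?_ ?_)
        (by linarith)
      · intro z hz
        rcases hz with rfl | rfl | hz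
        · exact ⟨k, hk, h2⟩
        · exact ⟨k, hk, h3⟩
        · exact ⟨z, hz, by rw [dist_self]; exact hη0.le⟩
      · intro z hz
        exact ⟨z, Set.mem_insert_of_mem _ (Set.mem_insert_of_mem _ hz),
          by rw [dist_self]; exact hη0.le⟩
    · change x ∈ (K' : Set (Set.Icc (0 : ℝ) 1))
      rw [hK']
      exact Set.mem_insert _ _
    · change y ∈ (K' : Set (Set.Icc (0 : ℝ) 1))
      rw [hK']
      exact Set.mem_insert_of_mem _ (Set.mem_insert _ _)

theorem result :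
    (∀ K : NonemptyCompacts (Set.Icc (0 : ℝ) 1), ∃ E, IsExp K E) ∧
    (∀ K : NonemptyCompacts (Set.Icc (0 : ℝ) 1),
      (∃ x ∈ K, ∃ y ∈ K, 0 < (x : ℝ) ∧ (x : ℝ) < (y : ℝ)) →
        ∀ E, IsExp K E → 0 < dimH (E : Set ℝ)) ∧
    (∀ᶠ K in residual (NonemptyCompacts (Set.Icc (0 : ℝ) 1)),
      ∀ E, IsExp K E → 0 < dimH (E : Set ℝ)) ∧
    ¬ IsMeagre {K : NonemptyCompacts (Set.Icc (0 : ℝ) 1) |
      ∀ E, IsExp K E → 0 < dimH (E : Set ℝ)} := by
  have h1 : ∀ᶠ K in residual (NonemptyCompacts (Set.Icc (0 : ℝ) 1)),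
      ∀ E, IsExp K E → 0 < dimH (E : Set ℝ) := by
    filter_upwards [typical_two] with K hK E hE
    exact pos_of_two hK hE
  exact ⟨exp_exists, fun K hK E hE => pos_of_two hK hE, h1, not_isMeagre_of_mem_residual h1⟩

end Pool.Agent.Results.MP_098a03_an.ExpTypicalPositive
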